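import Pool.Agent.H3RD.W830.RD.Stm

set_option autoImplicit false

namespace Pool.Agent.W191.RD.Farp

open Finset Filter Topology Pool.Agent.W830.RD
open scoped Classical

/-- the possible edges from the left -/
noncomputable def S1 {n : ℕ} (i : Fin n × Fin n) : Finset (Fin n × Fin n) :=
  (Finset.Ico i.1 i.2).image (fun u => (u, i.2))

/-- the possible edges to the right -/
noncomputable def S2 {n : ℕ} (i : Fin n × Fin n) : Finset (Fin n × Fin n) :=
  (Finset.Ioc i.1 i.2).image (fun u => (i.1, u))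

theorem S1_sub {n : ℕ} (i : Fin n × Fin n) : S1 i ⊆ Om n := by
  intro e he
  unfold S1 at he
  rw [Finset.mem_image] at he
  obtain ⟨u, hu, rfl⟩ := he
  rw [Finset.mem_Ico] at hu
  unfold Om
  rw [Finset.mem_filter]
  exact ⟨Finset.mem_univ _, hu.2⟩

theorem S2_sub {n : ℕ} (i : Fin n × Fin n) : S2 i ⊆ Om n := by
  intro e he
  unfold S2 at he
  rw [Finset.mem_image] at he
  obtain ⟨u, hu, rfl⟩ := he
  rw [Finset.mem_Ioc] at hu
  unfold Om
  rw [Finset.mem_filter]
  exact ⟨Finset.mem_univ _, hu.1⟩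

theorem S1_card {n : ℕ} (i : Fin n × Fin n) : (S1 i).card = (i.2 : ℕ) - i.1 := by
  unfold S1
  rw [Finset.card_image_of_injective _ (fun a b h => (Prod.mk.inj h).1), Fin.card_Ico]

theorem S2_card {n : ℕ} (i : Fin n × Fin n) : (S2 i).card = (i.2 : ℕ) - i.1 := by
  unfold S2
  rw [Finset.card_image_of_injective _ (fun a b h => (Prod.mk.inj h).2), Fin.card_Ioc]

theorem main (hB : S_PBAS) (hI : S_PIND) : S_FARP := by
  intro p n L hp hp1
  obtain ⟨-, b2, b3, b4, -, b6⟩ := hB p n hp hp1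
  obtain ⟨-, -, i3⟩ := hI p n hp hp1
  set s : Finset (Fin n × Fin n) := Finset.univ.filter (fun i => (i.1 : ℕ) + L < i.2) with hs
  have hcard : (s.card : ℝ) ≤ (n : ℝ) ^ 2 := by
    have h1 : s.card ≤ (Finset.univ : Finset (Fin n × Fin n)).card := Finset.card_filter_le _ _
    rw [Finset.card_univ, Fintype.card_prod, Fintype.card_fin] at h1
    have h2 : (s.card : ℝ) ≤ ((n * n : ℕ) : ℝ) := by exact_mod_cast h1
    rw [Nat.cast_mul] at h2
    nlinarith
  have hq0 : 0 ≤ 1 - p := by linarith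
  have hq1 : 1 - p ≤ 1 := by linarith
  have hqL : 0 ≤ (1 - p) ^ L := pow_nonneg hq0 L
  have gen : ∀ S : (Fin n × Fin n) → Finset (Fin n × Fin n), (∀ i, S i ⊆ Om n) →
      (∀ i, (S i).card = (i.2 : ℕ) - i.1) →
      Pr p n (fun E => ∃ i ∈ s, E ∩ S i = ∅) ≤ (n : ℝ) ^ 2 * (1 - p) ^ L := by
    intro S hS hc
    refine (b6 _ s (fun i E => E ∩ S i = ∅)).trans ?_
    have h1 : ∀ i ∈ s, Pr p n (fun E => E ∩ S i = ∅) ≤ (1 - p) ^ L := by
      intro i hi
      rw [hs, Finset.mem_filter] at hi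
      rw [i3 (S i) (hS i), hc i]
      apply pow_le_pow_of_le_one hq0 hq1
      omega
    refine (Finset.sum_le_sum h1).trans ?_
    rw [Finset.sum_const, nsmul_eq_mul]
    exact mul_le_mul_of_nonneg_right hcard hqL
  have g1 := gen S1 S1_sub S1_card
  have g2 := gen S2 S2_sub S2_card
  refine (b3 _ (fun E => (∃ i ∈ s, E ∩ S1 i = ∅) ∨ ∃ i ∈ s, E ∩ S2 i = ∅) ?_).trans
    ((b4 _ _).trans (by linarith))
  intro E hE hF
  unfold Far at hF
  rw [not_and_or] at hF
  rcases hF with hF | hF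
  · left
    push Not at hF
    obtain ⟨v, w, hvw, h⟩ := hF
    refine ⟨(v, w), by rw [hs, Finset.mem_filter]; exact ⟨Finset.mem_univ _, hvw⟩, ?_⟩
    rw [Finset.eq_empty_iff_forall_notMem]
    intro e he
    rw [Finset.mem_inter] at he
    obtain ⟨he1, he2⟩ := he
    unfold S1 at he2
    rw [Finset.mem_image] at he2
    obtain ⟨u, hu, rfl⟩ := he2
    rw [Finset.mem_Ico] at hu
    exact h u hu.1 hu.2 he1
  · right
    push Not at hF
    obtain ⟨w, v, hvw, h⟩ := hF
    refine ⟨(w, v), by rw [hs, Finset.mem_filter]; exact ⟨Finset.mem_univ _, hvw⟩, ?_⟩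
    rw [Finset.eq_empty_iff_forall_notMem]
    intro e he
    rw [Finset.mem_inter] at he
    obtain ⟨he1, he2⟩ := he
    unfold S2 at he2
    rw [Finset.mem_image] at he2
    obtain ⟨u, hu, rfl⟩ := he2
    rw [Finset.mem_Ioc] at hu
    exact h u hu.2 hu.1 he1

end Pool.Agent.W191.RD.Farp
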